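import Pool.Agent.Helper93.SL2.Fields
import Pool.Agent.Helper51.SigLeo.Delta

/-!
The choice of the parameters for the family of quadratic extensions which are not Galois
over `F`.
-/

namespace Pool.Agent.Helper93.NG

open NumberField Module
open Pool.Agent.Helper51.SigLeo Pool.Agent.Helper93.SL2

section ring

variable {A : Type*} [CommRing A]

theorem choice_x (s : A ≃+* A) (hss : ∀ z, s (s z) = z) (𝔔 : Ideal A) (hmax : 𝔔.IsMaximal)
    (g e : A) (hg : g ∈ 𝔔) (hg2 : g ∉ 𝔔 ^ 2) (he : e ∈ 𝔔) (hse : e + s e = 2)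
    (h2 : (2 : A) ∉ 𝔔) : ∃ x, x ∈ 𝔔 ∧ x ∉ 𝔔 ^ 2 ∧ s x - 2 ∈ 𝔔 := by
  obtain ⟨t, i, hi, hti⟩ := hmax.exists_inv h2
  have hz2 : (s t * e) ^ 2 ∈ 𝔔 ^ 2 := Ideal.pow_mem_pow (𝔔.mul_mem_left _ he) 2
  have hz1 : (s t * e) ^ 2 ∈ 𝔔 := by
    rw [sq]; exact 𝔔.mul_mem_left _ (𝔔.mul_mem_left _ he)
  refine ⟨g + (2 - g) * (s t * e) ^ 2, 𝔔.add_mem hg (𝔔.mul_mem_left _ hz1), ?_, ?_⟩
  · intro h
    apply hg2
    have : g = (g + (2 - g) * (s t * e) ^ 2) - (2 - g) * (s t * e) ^ 2 := by ring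
    rw [this]
    exact (𝔔 ^ 2).sub_mem h ((𝔔 ^ 2).mul_mem_left _ hz2)
  · have h1 : s (g + (2 - g) * (s t * e) ^ 2) - 2 =
        ((2 - s g) * (t * s e + 1)) * (-i - t * e) := by
      have h3 : s e = 2 - e := by linear_combination hse
      simp only [map_add, map_sub, map_mul, map_pow, map_ofNat, hss]
      rw [h3]
      linear_combination (2 - s g) * (t * (2 - e) + 1) * hti
    rw [h1]
    exact 𝔔.mul_mem_left _ (𝔔.sub_mem (𝔔.neg_mem hi) (𝔔.mul_mem_left _ he))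

theorem choice_beta [IsDedekindDomain A] (s : A ≃+* A) (𝔔 : Ideal A) (h𝔔 : 𝔔.IsPrime)
    (R x b : A) (hR : s R = R) (hx : x ∈ 𝔔) (hx2 : x ∉ 𝔔 ^ 2) (hsx : s x - 2 ∈ 𝔔)
    (hb : b ∈ 𝔔) (hsb : s b ∈ 𝔔) (hR1 : R ∉ 𝔔) (hR2 : 1 + R ∉ 𝔔) (h2 : (2 : A) ∉ 𝔔) :
    (R * x + R * x * b) * (2 + R * x + R * x * b) ∈ 𝔔 ∧
    (R * x + R * x * b) * (2 + R * x + R * x * b) ∉ 𝔔 ^ 2 ∧
    s ((R * x + R * x * b) * (2 + R * x + R * x * b)) ∉ 𝔔 := by
  have h1 : ∀ z ∈ 𝔔, 1 + z ∉ 𝔔 := by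
    intro z hz h
    apply h𝔔.ne_top
    rw [Ideal.eq_top_iff_one]
    have : (1 : A) = (1 + z) - z := by ring
    rw [this]
    exact 𝔔.sub_mem h hz
  have h22 : ∀ z ∈ 𝔔, 2 + z ∉ 𝔔 := by
    intro z hz h
    apply h2
    have : (2 : A) = (2 + z) - z := by ring
    rw [this]
    exact 𝔔.sub_mem h hz
  have hfac : (R * x + R * x * b) * (2 + R * x + R * x * b) =
      (R * (1 + b) * (2 + (R * x + R * x * b))) * x := by ring
  refine ⟨?_, ?_, ?_⟩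
  · rw [hfac]
    exact 𝔔.mul_mem_left _ hx
  · intro h
    rw [hfac] at h
    rcases Ideal.IsPrime.mul_mem_pow 𝔔 h with h | h
    · rcases h𝔔.mem_or_mem h with h | h
      · rcases h𝔔.mem_or_mem h with h | h
        · exact hR1 h
        · exact h1 b hb h
      · exact h22 _ (𝔔.add_mem (𝔔.mul_mem_left _ hx) (𝔔.mul_mem_left _ hb)) h
    · exact hx2 h
  · intro h
    have hs : s ((R * x + R * x * b) * (2 + R * x + R * x * b)) =
        ((R * s x) * (1 + s b)) * (2 * (1 + R) + (R * (s x - 2) + R * s x * s b)) := by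
      simp only [map_add, map_mul, map_ofNat, hR]
      ring
    rw [hs] at h
    rcases h𝔔.mem_or_mem h with h | h
    · rcases h𝔔.mem_or_mem h with h | h
      · rcases h𝔔.mem_or_mem h with h | h
        · exact hR1 h
        · apply h2
          have : (2 : A) = s x - (s x - 2) := by ring
          rw [this]
          exact 𝔔.sub_mem h hsx
      · exact h1 _ hsb h
    · have h3 : 2 * (1 + R) ∈ 𝔔 := by
        have : 2 * (1 + R) = (2 * (1 + R) + (R * (s x - 2) + R * s x * s b)) -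
            (R * (s x - 2) + R * s x * s b) := by ring
        rw [this]
        exact 𝔔.sub_mem h (𝔔.add_mem (𝔔.mul_mem_left _ hsx) (𝔔.mul_mem_left _ hsb))
      rcases h𝔔.mem_or_mem h3 with h | h
      · exact h2 h
      · exact hR2 h

/-- An element of valuation one times a unit at `𝔔` is not a square. -/
theorem not_sq_mul [IsDedekindDomain A] (𝔔 : Ideal A) (h𝔔 : 𝔔.IsPrime) (β d : A) (hβ : β ∈ 𝔔)
    (hβ2 : β ∉ 𝔔 ^ 2) (hd : d ∉ 𝔔) (q : A) : q ^ 2 ≠ β * d := by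
  intro h
  have h1 : q ^ 2 ∈ 𝔔 := by rw [h]; exact 𝔔.mul_mem_right _ hβ
  have h2 : q ∈ 𝔔 := h𝔔.mem_of_pow_mem 2 h1
  have h3 : d * β ∈ 𝔔 ^ 2 := by
    rw [mul_comm, ← h]
    exact Ideal.pow_mem_pow h2 2
  rcases Ideal.IsPrime.mul_mem_pow 𝔔 h3 with h | h
  · exact hd h
  · exact hβ2 h

end ring

section field

variable {F K : Type*} [Field F] [NumberField F] [Field K] [NumberField K] [Algebra F K]

/-- The conjugation of `K/F` on the integers. -/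
noncomputable def conjO (c : K ≃ₐ[F] K) : 𝓞 K ≃+* 𝓞 K :=
  RingOfIntegers.mapRingEquiv (c : K ≃+* K)

omit [NumberField F] [NumberField K] in
theorem conjO_coe (c : K ≃ₐ[F] K) (z : 𝓞 K) : algebraMap (𝓞 K) K (conjO c z) = c (z : K) := rfl

omit [NumberField F] [NumberField K] in
theorem algebraMap_coe (z : 𝓞 F) :
    algebraMap (𝓞 K) K (algebraMap (𝓞 F) (𝓞 K) z) = algebraMap F K (z : F) := by
  rw [← IsScalarTower.algebraMap_apply (𝓞 F) (𝓞 K) K, IsScalarTower.algebraMap_apply (𝓞 F) F K]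

omit [NumberField F] [NumberField K] in
theorem conjO_algebraMap (c : K ≃ₐ[F] K) (z : 𝓞 F) :
    conjO c (algebraMap (𝓞 F) (𝓞 K) z) = algebraMap (𝓞 F) (𝓞 K) z := by
  apply RingOfIntegers.coe_injective
  rw [conjO_coe]
  have h := algebraMap_coe (K := K) z
  have h2 : c (algebraMap (𝓞 K) K (algebraMap (𝓞 F) (𝓞 K) z)) =
      algebraMap (𝓞 K) K (algebraMap (𝓞 F) (𝓞 K) z) := by
    rw [h]; exact c.commutes _
  exact h2

/-- `1 + 2 M θ` is not a unit. -/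
theorem not_isUnit [IsTotallyReal F] [IsTotallyComplex K] (θ : 𝓞 K) (δ : F)
    (hθ : (θ : K) ^ 2 = algebraMap F K (-δ)) (hδ : ∀ φ : F →+* ℝ, 0 < φ δ) (M : ℕ) (hM : 0 < M) :
    ¬ IsUnit (1 + 2 * (M : 𝓞 K) * θ) := by
  rintro ⟨u, hu⟩
  have key : ∀ w : InfinitePlace K, 1 < w (u : K) := by
    intro w
    have h1 : (u : K) = 1 + 2 * (M : K) * (θ : K) := by
      have := congrArg (algebraMap (𝓞 K) K) hu
      rw [this]
      simp only [map_add, map_mul, map_one, map_ofNat, map_natCast]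
    rw [← InfinitePlace.norm_embedding_eq w, h1]
    have hreal : ComplexEmbedding.IsReal (w.embedding.comp (algebraMap F K)) :=
      IsTotallyReal.complexEmbedding_isReal _
    set σ : F →+* ℝ := hreal.embedding with hσ
    have hσv : ∀ z : F, w.embedding (algebraMap F K z) = ((σ z : ℝ) : ℂ) := fun z =>
      (ComplexEmbedding.IsReal.coe_embedding_apply hreal z).symm
    have hsq : (w.embedding (θ : K)) ^ 2 = ((-(σ δ) : ℝ) : ℂ) := by
      rw [← map_pow, hθ, hσv, map_neg]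
    have hδ' := hδ σ
    have hre : (w.embedding (θ : K)).re = 0 ∧ 0 < (w.embedding (θ : K)).im ^ 2 := by
      have e1 := congrArg Complex.re hsq
      have e2 := congrArg Complex.im hsq
      rw [pow_two, Complex.mul_re, Complex.ofReal_re] at e1
      rw [pow_two, Complex.mul_im, Complex.ofReal_im] at e2
      have e3 : (w.embedding (θ : K)).re * (w.embedding (θ : K)).im = 0 := by linarith
      rcases mul_eq_zero.1 e3 with h | h
      · refine ⟨h, ?_⟩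
        rw [h] at e1
        nlinarith
      · exfalso
        rw [h] at e1
        nlinarith [mul_self_nonneg (w.embedding (θ : K)).re]
    rw [map_add, map_mul, map_mul, map_one, map_ofNat, map_natCast]
    have h3 : 1 < ‖1 + 2 * (M : ℂ) * w.embedding (θ : K)‖ ^ 2 := by
      rw [← Complex.normSq_eq_norm_sq, Complex.normSq_apply]
      have hM' : (0 : ℝ) < M := by exact_mod_cast hM
      have e4 : (1 + 2 * (M : ℂ) * w.embedding (θ : K)).re = 1 := by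
        simp [hre.1]
      have e5 : (1 + 2 * (M : ℂ) * w.embedding (θ : K)).im =
          2 * M * (w.embedding (θ : K)).im := by
        simp [hre.1]
      rw [e4, e5]
      have : 0 < (2 * (M : ℝ) * (w.embedding (θ : K)).im) * (2 * M * (w.embedding (θ : K)).im) := by
        have : (2 * (M : ℝ) * (w.embedding (θ : K)).im) * (2 * M * (w.embedding (θ : K)).im) =
          4 * M ^ 2 * (w.embedding (θ : K)).im ^ 2 := by ring
        rw [this]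
        have := hre.2
        positivity
      linarith
    by_contra hcon
    push Not at hcon
    nlinarith [norm_nonneg (1 + 2 * (M : ℂ) * w.embedding (θ : K))]
  have hsum := Units.sum_mult_mul_log u
  have hpos : 0 < ∑ w : InfinitePlace K, (w.mult : ℝ) * Real.log (w (u : K)) := by
    apply Finset.sum_pos
    · intro w _
      exact mul_pos (by exact_mod_cast InfinitePlace.mult_pos) (Real.log_pos (key w))
    · exact ⟨Classical.arbitrary _, Finset.mem_univ _⟩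
  linarith

/-- The parameters. -/
theorem exists_choice [IsTotallyReal F] [IsTotallyComplex K] (hd : finrank ℚ F = 2)
    {cF : F ≃ₐ[ℚ] F} (hcF : cF ≠ 1) (θ : 𝓞 K) (δ : F) (hθ : (θ : K) ^ 2 = algebraMap F K (-δ))
    (hδ : ∀ φ : F →+* ℝ, 0 < φ δ) (c : K ≃ₐ[F] K) (hc : c (θ : K) = -θ)
    (hcc : ∀ z, c (c z) = z) (R : ℕ) (hR : 0 < R)
    (T : Finset (𝓞 K)) (hT : ∀ d ∈ T, d ≠ 0) :
    ∃ (x y b β : 𝓞 K) (ν : (𝓞 F)ˣ) (z : 𝓞 F),
      4 * ((R : 𝓞 K) * x * b) * (1 + R * x) = 1 - (algebraMap (𝓞 F) (𝓞 K) (ν : 𝓞 F)) ^ 2 ∧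
      b = R * y ∧ (ν : 𝓞 F) - 1 = R * z ∧ x ≠ 0 ∧ b ≠ 0 ∧ (∀ n : ℕ, n ≠ 0 → ν ^ n ≠ 1) ∧
      (ν : F) * cF (ν : F) = 1 ∧ β = (R * x + R * x * b) * (2 + R * x + R * x * b) ∧
      (∀ q : 𝓞 K, q ^ 2 ≠ β) ∧ (∀ q : 𝓞 K, q ^ 2 ≠ β * conjO c β) ∧
      ∀ d ∈ T, ∀ q : 𝓞 K, q ^ 2 ≠ β * d := by
  classical
  have hpos : ∀ d ∈ T, 0 < Ideal.absNorm (Ideal.span {d}) := by
    intro d hd
    rw [Nat.pos_iff_ne_zero, Ne, Ideal.absNorm_eq_zero_iff, Ideal.span_singleton_eq_bot]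
    exact hT d hd
  have hprod : 0 < ∏ d ∈ T, Ideal.absNorm (Ideal.span {d}) := Finset.prod_pos hpos
  set M : ℕ := R * (1 + R) * ∏ d ∈ T, Ideal.absNorm (Ideal.span {d}) with hM
  have hM0 : 0 < M := by positivity
  obtain ⟨𝔔, hmax, he⟩ := exists_max_ideal_of_mem_nonunits (not_isUnit θ δ hθ hδ M hM0)
  have hprime : 𝔔.IsPrime := hmax.isPrime
  -- elements dividing `2 M` are not in `𝔔`
  have hnot : ∀ m : 𝓞 K, m ∣ 2 * (M : 𝓞 K) → m ∉ 𝔔 := by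
    rintro m ⟨m', hm'⟩ hm
    apply hprime.ne_top
    rw [Ideal.eq_top_iff_one]
    have : (1 : 𝓞 K) = (1 + 2 * (M : 𝓞 K) * θ) - m' * θ * m := by
      rw [hm']; ring
    rw [this]
    exact 𝔔.sub_mem he (𝔔.mul_mem_left _ hm)
  have h2 : (2 : 𝓞 K) ∉ 𝔔 := hnot _ (dvd_mul_right _ _)
  have hRQ : (R : 𝓞 K) ∉ 𝔔 := hnot _ (by
    rw [hM]; push_cast
    exact ⟨2 * (1 + R) * ∏ d ∈ T, ((Ideal.absNorm (Ideal.span {d}) : ℕ) : 𝓞 K), by ring⟩)
  have hR1Q : 1 + (R : 𝓞 K) ∉ 𝔔 := hnot _ (by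
    rw [hM]; push_cast
    exact ⟨2 * R * ∏ d ∈ T, ((Ideal.absNorm (Ideal.span {d}) : ℕ) : 𝓞 K), by ring⟩)
  have hTQ : ∀ d ∈ T, d ∉ 𝔔 := by
    intro d hdT hdQ
    have h1 : ((Ideal.absNorm (Ideal.span {d}) : ℕ) : 𝓞 K) ∈ 𝔔 :=
      (Ideal.span_singleton_le_iff_mem 𝔔).2 hdQ (Ideal.absNorm_mem (Ideal.span {d}))
    refine hnot _ ?_ h1
    obtain ⟨m, hm⟩ := Finset.dvd_prod_of_mem (fun d => Ideal.absNorm (Ideal.span {d})) hdT
    rw [hM, hm]
    push_cast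
    exact ⟨2 * (R * (1 + R)) * m, by ring⟩
  -- the conjugate
  have hss : ∀ z, conjO c (conjO c z) = z := by
    intro z
    apply RingOfIntegers.coe_injective
    change c (c (z : K)) = (z : K)
    exact hcc _
  have hsθ : conjO c θ = -θ := by
    apply RingOfIntegers.coe_injective
    rw [conjO_coe, hc, map_neg]
  have hse : (1 + 2 * (M : 𝓞 K) * θ) + conjO c (1 + 2 * (M : 𝓞 K) * θ) = 2 := by
    simp only [map_add, map_mul, map_one, map_ofNat, map_natCast, hsθ]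
    ring
  have hQ0 : 𝔔 ≠ ⊥ := by
    rintro rfl
    rw [Ideal.mem_bot] at he
    apply h2
    rw [Ideal.mem_bot, ← hse, he, map_zero, add_zero]
  obtain ⟨g, hg1, hg2⟩ := Ideal.exists_mem_pow_notMem_pow_succ 𝔔 hQ0 hprime.ne_top 1
  rw [pow_one] at hg1
  obtain ⟨x, hx1, hx2, hx3⟩ := choice_x (conjO c) hss 𝔔 hmax g _ hg1 hg2 he hse h2
  have hx0 : x ≠ 0 := by
    rintro rfl
    exact hx2 (Ideal.zero_mem _)
  set a : 𝓞 K := (R : 𝓞 K) * x with ha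
  have haQ : a ∈ 𝔔 := 𝔔.mul_mem_left _ hx1
  have hR0 : (R : 𝓞 K) ≠ 0 := by exact_mod_cast hR.ne'
  have ha0 : a ≠ 0 := mul_ne_zero hR0 hx0
  have h1a0 : 1 + a ≠ 0 := by
    intro h
    apply hprime.ne_top
    rw [Ideal.eq_top_iff_one]
    have : (1 : 𝓞 K) = -a := eq_neg_of_add_eq_zero_left h
    rw [this]
    exact 𝔔.neg_mem haQ
  -- the integers `n₀`, `ℓ`
  set n₀ : ℕ := Ideal.absNorm (Ideal.span {a * (1 + a)}) with hn₀
  have hn₀0 : n₀ ≠ 0 := by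
    rw [hn₀, Ne, Ideal.absNorm_eq_zero_iff, Ideal.span_singleton_eq_bot]
    exact mul_ne_zero ha0 h1a0
  obtain ⟨s₀, hs₀⟩ : ∃ s₀ : 𝓞 K, s₀ * (a * (1 + a)) = (n₀ : 𝓞 K) :=
    Ideal.mem_span_singleton'.1 (Ideal.absNorm_mem (Ideal.span {a * (1 + a)}))
  set ℓ : ℕ := Ideal.absNorm 𝔔 with hℓ
  have hℓ0 : ℓ ≠ 0 := by
    rw [hℓ, Ne, Ideal.absNorm_eq_zero_iff]; exact hQ0
  have hℓQ : (ℓ : 𝓞 K) ∈ 𝔔 := Ideal.absNorm_mem 𝔔
  obtain ⟨ν, β₁, hν1, hν2, -, hν3⟩ := exists_unit_mod hd hcF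
    (((4 * ℓ * R * n₀ : ℕ)) : 𝓞 F) (by
      have : (4 * ℓ * R * n₀ : ℕ) ≠ 0 := by positivity
      exact_mod_cast this)
  -- `b`
  set i : 𝓞 F →+* 𝓞 K := algebraMap (𝓞 F) (𝓞 K) with hi
  set y : 𝓞 K := -((ℓ : 𝓞 K) * s₀ * i β₁ * (1 + i (ν : 𝓞 F))) with hy
  have hiν : i (ν : 𝓞 F) - 1 = ((4 * ℓ * R * n₀ : ℕ) : 𝓞 K) * i β₁ := by
    have := congrArg i hν1
    rwa [map_sub, map_one, map_mul, map_natCast] at this
  have hrel : 4 * (a * ((R : 𝓞 K) * y)) * (1 + a) = 1 - (i (ν : 𝓞 F)) ^ 2 := by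
    rw [hy]
    push_cast at hiν
    linear_combination (-4 * (ℓ : 𝓞 K) * R * i β₁ * (1 + i (ν : 𝓞 F))) * hs₀ +
      (1 + i (ν : 𝓞 F)) * hiν
  have hbQ : (R : 𝓞 K) * y ∈ 𝔔 := by
    have : (R : 𝓞 K) * y = (-(R * (s₀ * i β₁ * (1 + i (ν : 𝓞 F))))) * ℓ := by
      rw [hy]; ring
    rw [this]
    exact 𝔔.mul_mem_left _ hℓQ
  have hsbQ : conjO c ((R : 𝓞 K) * y) ∈ 𝔔 := by
    have : conjO c ((R : 𝓞 K) * y) =
        (-(R * (conjO c s₀ * conjO c (i β₁) * (1 + conjO c (i (ν : 𝓞 F)))))) * ℓ := by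
      rw [hy]
      simp only [map_add, map_mul, map_one, map_neg, map_natCast]
      ring
    rw [this]
    exact 𝔔.mul_mem_left _ hℓQ
  obtain ⟨hβ1, hβ2, hβ3⟩ := choice_beta (conjO c) 𝔔 hprime (R : 𝓞 K) x ((R : 𝓞 K) * y)
    (map_natCast _ _) hx1 hx2 hx3 hbQ hsbQ hRQ hR1Q h2
  have h1Q : (1 : 𝓞 K) ∉ 𝔔 := fun h => hprime.ne_top ((Ideal.eq_top_iff_one _).2 h)
  refine ⟨x, y, (R : 𝓞 K) * y, _, ν, ((4 * ℓ * n₀ : ℕ) : 𝓞 F) * β₁, hrel, rfl, ?_, hx0, ?_, hν2,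
    hν3, rfl, ?_, ?_, ?_⟩
  · rw [hν1]; push_cast; ring
  · intro h0
    rw [h0, mul_zero, mul_zero, zero_mul] at hrel
    apply hν2 2 two_ne_zero
    apply Units.ext
    apply FaithfulSMul.algebraMap_injective (𝓞 F) (𝓞 K)
    rw [Units.val_pow_eq_pow_val, map_pow, Units.val_one, map_one]
    exact (sub_eq_zero.1 hrel.symm).symm
  · intro q hq
    exact not_sq_mul 𝔔 hprime _ 1 hβ1 hβ2 h1Q q (by rw [mul_one]; exact hq)
  · intro q hq
    exact not_sq_mul 𝔔 hprime _ _ hβ1 hβ2 hβ3 q hq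
  · intro d hdT q hq
    exact not_sq_mul 𝔔 hprime _ _ hβ1 hβ2 (hTQ d hdT) q hq

end field

end Pool.Agent.Helper93.NG
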