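import Pool.Agent.Helper93.SL2.PadicLog

/-!
The local computation for the family of quadratic extensions which are not Galois over `F`.
-/

namespace Pool.Agent.Helper93.NG

open Pool.Agent.Helper51.SigLeo Pool.Agent.Helper93.SL2

variable (p : ℕ) [hp : Fact p.Prime] {k : Type*} [NormedField k] [NormedAlgebra ℚ_[p] k]
  [IsUltrametricDist k]

include p in
theorem local_logs (L : IwasawaLog p k) {a b ν r : k} {u v : kˣ} (ha : ‖a‖ ≤ 1 / 8)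
    (ha0 : a ≠ 0) (hb : ‖b‖ ≤ ‖a‖ / 8) (hb0 : b ≠ 0) (hν : ‖1 - ν‖ ≤ 1 / 8)
    (hrel : 4 * b * (1 + a) = 1 - ν ^ 2) (hr : r ^ 2 = (a + b) * (2 + a + b))
    (hu : (u : k) = 1 + a + b + r) (hv : (v : k) * ν = 1 + a - b + r) :
    r ≠ 0 ∧ ∃ ε ε' : k, L.toFun u = r * (1 + ε) ∧
      L.toFun v = L.toFun u + 2 * b * r / ν * (1 + ε') ∧ ‖ε‖ < ‖(2 : k)‖ ∧ ‖ε'‖ < ‖(2 : k)‖ := by
  have hchar : CharZero k := charZero_of_padic p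
  have h2 := norm_two_ge p (k := k)
  have h2' := norm_two_le p (k := k)
  have h2pos : 0 < ‖(2 : k)‖ := by linarith
  have hapos : 0 < ‖a‖ := norm_pos_iff.mpr ha0
  have hbpos : 0 < ‖b‖ := norm_pos_iff.mpr hb0
  have hab : ‖a + b‖ = ‖a‖ := norm_add_eq_of_lt (by linarith)
  have h2ab : ‖2 + a + b‖ = ‖(2 : k)‖ := by
    rw [add_assoc]
    exact norm_add_eq_of_lt (by rw [hab]; linarith)
  have h1a : ‖1 + a‖ = 1 := by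
    rw [norm_add_eq_of_lt, norm_one]
    rw [norm_one]; linarith
  have h1pν : ‖1 + ν‖ = ‖(2 : k)‖ := by
    have : 1 + ν = 2 + (-(1 - ν)) := by ring
    rw [this]
    exact norm_add_eq_of_lt (by rw [norm_neg]; linarith)
  have hνn : ‖ν‖ = 1 := by
    have : ν = 1 + (-(1 - ν)) := by ring
    rw [this, norm_add_eq_of_lt, norm_one]
    rw [norm_one, norm_neg]; linarith
  have hν0 : ν ≠ 0 := by
    rintro rfl
    rw [norm_zero] at hνn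
    exact zero_ne_one hνn
  have h4 : ‖(4 : k)‖ = ‖(2 : k)‖ * ‖(2 : k)‖ := by
    rw [← norm_mul]; norm_num
  have hh : ‖1 - ν‖ = ‖(2 : k)‖ * ‖b‖ := by
    have h5 : ‖(4 : k) * b * (1 + a)‖ = ‖(1 - ν) * (1 + ν)‖ := by
      rw [hrel]; congr 1; ring
    rw [norm_mul, norm_mul, norm_mul, h1a, h1pν, h4, mul_one] at h5
    have h6 : ‖(2 : k)‖ * ‖(2 : k)‖ * ‖b‖ = (‖(2 : k)‖ * ‖b‖) * ‖(2 : k)‖ := by ring
    rw [h6] at h5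
    exact (mul_right_cancel₀ h2pos.ne' h5).symm
  have hr2 : ‖r‖ ^ 2 = ‖a‖ * ‖(2 : k)‖ := by
    rw [← norm_pow, hr, norm_mul, hab, h2ab]
  have hr0 : r ≠ 0 := by
    rintro rfl
    rw [norm_zero] at hr2
    have : 0 < ‖a‖ * ‖(2 : k)‖ := by positivity
    nlinarith
  have hrpos : 0 < ‖r‖ := norm_pos_iff.mpr hr0
  have har : ‖a‖ ≤ ‖r‖ := by
    apply le_of_sq_le_sq _ hrpos.le
    rw [hr2]
    nlinarith
  have hbr : ‖b‖ ≤ ‖r‖ := by linarith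
  have hrhalf : ‖r‖ ≤ 1 / 2 := by
    apply le_of_sq_le_sq _ (by norm_num)
    rw [hr2]
    nlinarith
  have hui : ((u⁻¹ : kˣ) : k) = 1 + a + b - r := by
    rw [Units.val_inv_eq_inv_val, hu]
    apply inv_eq_of_mul_eq_one_left
    linear_combination -hr
  have hu1 : ‖(u : k) - 1‖ ≤ ‖r‖ := by
    have : (u : k) - 1 = (a + b) + r := by rw [hu]; ring
    rw [this]
    exact (norm_add_le_max' _ _).trans (max_le (by rw [hab]; exact har) le_rfl)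
  have hestu := L.norm_sub_le u (hu1.trans hrhalf)
  have hu2 : ((u : k) - ((u⁻¹ : kˣ) : k)) / 2 = r := by
    rw [hui, hu]; ring
  rw [hu2] at hestu
  -- the quotient `w = v / u`
  have hvv : (v : k) = (1 + a - b + r) / ν := by rw [← hv]; field_simp
  have hw : ((v * u⁻¹ : kˣ) : k) = ((1 + ν ^ 2) / 2 - 2 * b ^ 2 + 2 * b * r) / ν := by
    rw [Units.val_mul, hvv, hui, div_mul_eq_mul_div]
    congr 1
    field_simp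
    linear_combination -2 * hr - hrel
  have hwi : (((v * u⁻¹)⁻¹ : kˣ) : k) = ((1 + ν ^ 2) / 2 - 2 * b ^ 2 - 2 * b * r) / ν := by
    rw [Units.val_inv_eq_inv_val, hw]
    apply inv_eq_of_mul_eq_one_left
    rw [div_mul_div_comm, div_eq_one_iff_eq (mul_ne_zero hν0 hν0)]
    have h7 : (1 + ν ^ 2) / 2 - 2 * b ^ 2 = 1 - 2 * b * (1 + a + b) := by
      field_simp
      linear_combination hrel
    rw [h7]
    linear_combination (-4 * b ^ 2) * hr - hrel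
  have hw1 : ‖((v * u⁻¹ : kˣ) : k) - 1‖ ≤ ‖(2 : k)‖ * ‖b‖ * ‖r‖ := by
    have h8 : ((v * u⁻¹ : kˣ) : k) - 1 =
        ((1 - ν) ^ 2 / 2 + (-(2 * b ^ 2) + 2 * b * r)) / ν := by
      rw [hw]; field_simp; ring
    rw [h8, norm_div, hνn, div_one]
    have hbb : ‖(2 : k)‖ * ‖b‖ * ‖b‖ ≤ ‖(2 : k)‖ * ‖b‖ * ‖r‖ :=
      mul_le_mul_of_nonneg_left hbr (by positivity)
    refine (norm_add_le_max' _ _).trans (max_le ?_ ((norm_add_le_max' _ _).trans (max_le ?_ ?_)))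
    · rw [norm_div, norm_pow, hh, div_le_iff₀ h2pos]
      calc (‖(2 : k)‖ * ‖b‖) ^ 2 = ‖(2 : k)‖ * ‖b‖ * ‖b‖ * ‖(2 : k)‖ := by ring
        _ ≤ _ := mul_le_mul_of_nonneg_right hbb h2pos.le
    · rw [norm_neg, norm_mul, norm_pow]
      calc ‖(2 : k)‖ * ‖b‖ ^ 2 = ‖(2 : k)‖ * ‖b‖ * ‖b‖ := by ring
        _ ≤ _ := hbb
    · rw [norm_mul, norm_mul]
  have hbr1 : ‖(2 : k)‖ * ‖b‖ * ‖r‖ ≤ 1 / 2 := by
    have h9 : ‖(2 : k)‖ * ‖b‖ ≤ 1 := by nlinarith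
    nlinarith
  have hestw := L.norm_sub_le (v * u⁻¹) (hw1.trans hbr1)
  have hw2 : (((v * u⁻¹ : kˣ) : k) - (((v * u⁻¹)⁻¹ : kˣ) : k)) / 2 = 2 * b * r / ν := by
    rw [hwi, hw]; field_simp; ring
  rw [hw2] at hestw
  have hLw : L.toFun (v * u⁻¹) = L.toFun v - L.toFun u := by
    rw [L.map_mul, toFun_inv]; ring
  have hΔ0 : 2 * b * r / ν ≠ 0 := div_ne_zero (mul_ne_zero (mul_ne_zero two_ne_zero hb0) hr0) hν0
  have hΔn : ‖2 * b * r / ν‖ = ‖(2 : k)‖ * ‖b‖ * ‖r‖ := by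
    rw [norm_div, hνn, div_one, norm_mul, norm_mul]
  have hΔpos : 0 < ‖(2 : k)‖ * ‖b‖ * ‖r‖ := by positivity
  refine ⟨hr0, L.toFun u / r - 1, L.toFun (v * u⁻¹) / (2 * b * r / ν) - 1, ?_, ?_, ?_, ?_⟩
  · field_simp; ring
  · have : (2 * b * r / ν) * (1 + (L.toFun (v * u⁻¹) / (2 * b * r / ν) - 1)) =
        L.toFun (v * u⁻¹) := by
      rw [add_sub_cancel]
      exact mul_div_cancel₀ _ hΔ0
    rw [this, hLw]; ring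
  · have h8 : L.toFun u / r - 1 = (L.toFun u - r) / r := by field_simp
    rw [h8, norm_div, div_lt_iff₀ hrpos]
    have h10 : ‖(u : k) - 1‖ ^ 3 ≤ ‖r‖ ^ 3 := pow_le_pow_left₀ (norm_nonneg _) hu1 3
    calc ‖L.toFun u - r‖ ≤ 3 * ‖(u : k) - 1‖ ^ 3 := hestu
      _ ≤ 3 * ‖r‖ ^ 3 := by linarith
      _ = 3 * ‖r‖ ^ 2 * ‖r‖ := by ring
      _ < ‖(2 : k)‖ * ‖r‖ := by
        apply mul_lt_mul_of_pos_right _ hrpos
        rw [hr2]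
        nlinarith
  · have h8 : L.toFun (v * u⁻¹) / (2 * b * r / ν) - 1 =
        (L.toFun (v * u⁻¹) - 2 * b * r / ν) / (2 * b * r / ν) := by
      rw [sub_div, div_self hΔ0]
    rw [h8, norm_div, hΔn, div_lt_iff₀ hΔpos]
    have h10 : ‖((v * u⁻¹ : kˣ) : k) - 1‖ ^ 3 ≤ (‖(2 : k)‖ * ‖b‖ * ‖r‖) ^ 3 :=
      pow_le_pow_left₀ (norm_nonneg _) hw1 3
    calc ‖L.toFun (v * u⁻¹) - 2 * b * r / ν‖ ≤ 3 * ‖((v * u⁻¹ : kˣ) : k) - 1‖ ^ 3 := hestw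
      _ ≤ 3 * (‖(2 : k)‖ * ‖b‖ * ‖r‖) ^ 3 := by linarith
      _ = (3 * (‖(2 : k)‖ * ‖b‖ * ‖r‖) ^ 2) * (‖(2 : k)‖ * ‖b‖ * ‖r‖) := by ring
      _ < ‖(2 : k)‖ * (‖(2 : k)‖ * ‖b‖ * ‖r‖) := by
        apply mul_lt_mul_of_pos_right _ hΔpos
        have h11 : ‖(2 : k)‖ * ‖b‖ * ‖r‖ ≤ 1 / 128 := by
          have h12 : ‖b‖ ≤ 1 / 64 := by linarith
          calc ‖(2 : k)‖ * ‖b‖ * ‖r‖ ≤ 1 * (1 / 64) * (1 / 2) := by
                apply mul_le_mul (mul_le_mul h2' h12 hbpos.le zero_le_one) hrhalf hrpos.le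
                norm_num
            _ = 1 / 128 := by norm_num
        have h13 : (‖(2 : k)‖ * ‖b‖ * ‖r‖) ^ 2 ≤ (1 / 128) ^ 2 :=
          pow_le_pow_left₀ hΔpos.le h11 2
        calc 3 * (‖(2 : k)‖ * ‖b‖ * ‖r‖) ^ 2 ≤ 3 * (1 / 128) ^ 2 := by linarith
          _ < 1 / 2 := by norm_num
          _ ≤ _ := h2

include p in
/-- The determinant does not vanish. -/
theorem det_ne_zero (L : IwasawaLog p k) {a₁ b₁ ν₁ r₁ a₂ b₂ ν₂ r₂ : k} {u₁ v₁ u₂ v₂ : kˣ}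
    (ha₁ : ‖a₁‖ ≤ 1 / 8) (ha0₁ : a₁ ≠ 0) (hb₁ : ‖b₁‖ ≤ ‖a₁‖ / 8) (hb0₁ : b₁ ≠ 0)
    (hν₁ : ‖1 - ν₁‖ ≤ 1 / 8) (hrel₁ : 4 * b₁ * (1 + a₁) = 1 - ν₁ ^ 2)
    (hr₁ : r₁ ^ 2 = (a₁ + b₁) * (2 + a₁ + b₁)) (hu₁ : (u₁ : k) = 1 + a₁ + b₁ + r₁)
    (hv₁ : (v₁ : k) * ν₁ = 1 + a₁ - b₁ + r₁)
    (ha₂ : ‖a₂‖ ≤ 1 / 8) (ha0₂ : a₂ ≠ 0) (hb₂ : ‖b₂‖ ≤ ‖a₂‖ / 8) (hb0₂ : b₂ ≠ 0)
    (hν₂ : ‖1 - ν₂‖ ≤ 1 / 8) (hrel₂ : 4 * b₂ * (1 + a₂) = 1 - ν₂ ^ 2)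
    (hr₂ : r₂ ^ 2 = (a₂ + b₂) * (2 + a₂ + b₂)) (hu₂ : (u₂ : k) = 1 + a₂ + b₂ + r₂)
    (hv₂ : (v₂ : k) * ν₂ = 1 + a₂ - b₂ + r₂) (hνν : ν₁ * ν₂ = 1) :
    L.toFun u₁ * L.toFun v₂ - L.toFun u₂ * L.toFun v₁ ≠ 0 := by
  have hchar : CharZero k := charZero_of_padic p
  have h2 := norm_two_ge p (k := k)
  have h2' := norm_two_le p (k := k)
  obtain ⟨hr01, ε₁, ε₁', hL1, hL1', he1, he1'⟩ :=
    local_logs p L ha₁ ha0₁ hb₁ hb0₁ hν₁ hrel₁ hr₁ hu₁ hv₁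
  obtain ⟨hr02, ε₂, ε₂', hL2, hL2', he2, he2'⟩ :=
    local_logs p L ha₂ ha0₂ hb₂ hb0₂ hν₂ hrel₂ hr₂ hu₂ hv₂
  have hν01 : ν₁ ≠ 0 := left_ne_zero_of_mul_eq_one hνν
  have hν02 : ν₂ ≠ 0 := right_ne_zero_of_mul_eq_one hνν
  have h1a : ∀ a : k, ‖a‖ ≤ 1 / 8 → ‖1 + a‖ = 1 := by
    intro a ha
    rw [norm_add_eq_of_lt, norm_one]
    rw [norm_one]; linarith
  have h1a0 : ∀ a : k, ‖a‖ ≤ 1 / 8 → 1 + a ≠ 0 := by
    intro a ha h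
    have := h1a a ha
    rw [h, norm_zero] at this
    exact zero_ne_one this
  have h1 := h1a0 a₁ ha₁
  have h3 := h1a0 a₂ ha₂
  -- the error terms
  have herr : ∀ a ε ε' : k, ‖a‖ ≤ 1 / 8 → ‖ε‖ < ‖(2 : k)‖ → ‖ε'‖ < ‖(2 : k)‖ →
      ‖(1 + ε) * (1 + ε') / (1 + a) - 1‖ < ‖(2 : k)‖ := by
    intro a ε ε' ha hε hε'
    have h4 : (1 + ε) * (1 + ε') / (1 + a) - 1 = ((ε + ε' * (1 + ε)) - a) / (1 + a) := by
      rw [div_sub_one (h1a0 a ha)]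
      congr 1
      ring
    rw [h4, norm_div, h1a a ha, div_one]
    refine (norm_sub_le_max' _ _).trans_lt (max_lt ?_ (by linarith))
    refine (norm_add_le_max' _ _).trans_lt (max_lt hε ?_)
    rw [norm_mul]
    have h5 : ‖1 + ε‖ ≤ 1 := (norm_add_le_max' _ _).trans (max_le (by rw [norm_one])
      (hε.le.trans h2'))
    calc ‖ε'‖ * ‖1 + ε‖ ≤ ‖ε'‖ * 1 := mul_le_mul_of_nonneg_left h5 (norm_nonneg _)
      _ < _ := by rw [mul_one]; exact hε'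
  -- `q = 1/ν - ν`
  have hq1 : 2 * b₁ / ν₁ = (ν₂ - ν₁) / (2 * (1 + a₁)) := by
    rw [div_eq_div_iff hν01 (mul_ne_zero two_ne_zero h1)]
    linear_combination hrel₁ - hνν
  have hq2 : 2 * b₂ / ν₂ = -(ν₂ - ν₁) / (2 * (1 + a₂)) := by
    rw [div_eq_div_iff hν02 (mul_ne_zero two_ne_zero h3)]
    linear_combination hrel₂ - hνν
  have hq0 : ν₂ - ν₁ ≠ 0 := by
    intro h
    rw [h, zero_div] at hq1
    exact (div_ne_zero (mul_ne_zero two_ne_zero hb0₁) hν01) hq1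
  have hbr : L.toFun u₁ * L.toFun v₂ - L.toFun u₂ * L.toFun v₁ =
      -(r₁ * r₂ * (ν₂ - ν₁) / 2) * (2 + (((1 + ε₁) * (1 + ε₂') / (1 + a₂) - 1) +
        ((1 + ε₂) * (1 + ε₁') / (1 + a₁) - 1))) := by
    rw [hL1', hL2', hL1, hL2]
    have e1 : 2 * b₁ * r₁ / ν₁ = r₁ * ((ν₂ - ν₁) / (2 * (1 + a₁))) := by
      rw [← hq1]; ring
    have e2 : 2 * b₂ * r₂ / ν₂ = r₂ * (-(ν₂ - ν₁) / (2 * (1 + a₂))) := by
      rw [← hq2]; ring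
    rw [e1, e2]
    field_simp
    ring
  rw [hbr]
  refine mul_ne_zero (neg_ne_zero.2 (div_ne_zero (mul_ne_zero (mul_ne_zero hr01 hr02) hq0)
    two_ne_zero)) ?_
  intro h0
  have h6 : ‖(2 : k)‖ < ‖(2 : k)‖ := by
    have h7 : (2 : k) = -(((1 + ε₁) * (1 + ε₂') / (1 + a₂) - 1) +
        ((1 + ε₂) * (1 + ε₁') / (1 + a₁) - 1)) := eq_neg_of_add_eq_zero_left h0
    calc ‖(2 : k)‖ = ‖((1 + ε₁) * (1 + ε₂') / (1 + a₂) - 1) +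
        ((1 + ε₂) * (1 + ε₁') / (1 + a₁) - 1)‖ := by
          nth_rewrite 1 [h7]
          rw [norm_neg]
      _ ≤ max _ _ := norm_add_le_max' _ _
      _ < ‖(2 : k)‖ := max_lt (herr _ _ _ ha₂ he1 he2') (herr _ _ _ ha₁ he2 he1')
  exact lt_irrefl _ h6

end Pool.Agent.Helper93.NG
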