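import Pool.Agent.Helper93.NG.Local
import Pool.Agent.Helper93.NG.Choice
import Pool.Agent.Helper93.SL2.Member

/-!
The `Σ`-Leopoldt conjecture for infinitely many quadratic extensions of `K` which are not Galois
over `F`.
-/

namespace Pool.Agent.Helper93.NG

open NumberField Module
open Pool.Agent.Helper51.SigLeo Pool.Agent.Helper93.SL2

/-- `K(√β)` is not Galois over `F` if `β β̄` is not a square in `K`. -/
theorem not_isGalois {F K H : Type*} [Field F] [Field K] [Field H] [Algebra F K] [Algebra K H]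
    [Algebra F H] [IsScalarTower F K H] [CharZero K] (hH : finrank K H = 2) (c : K ≃ₐ[F] K)
    (hcc : ∀ z, c (c z) = z) (r : H) (β : K) (hr : r ^ 2 = algebraMap K H β)
    (hβ : ∀ q : K, q ^ 2 ≠ β) (hββ : ∀ q : K, q ^ 2 ≠ β * c β) : ¬ IsGalois F H := by
  intro h
  have hn : Normal F H := h.to_normal
  have hg : ∀ z : K, c.liftNormal H (algebraMap K H z) = algebraMap K H (c z) := fun z =>
    AlgEquiv.liftNormal_commutes c H z
  have h1 : (c.liftNormal H r) ^ 2 = algebraMap K H (c β) := by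
    rw [← map_pow, hr, hg]
  rcases sq_cases hH r β hr hβ _ _ h1 with ⟨s, -, hs⟩ | ⟨s, -, hs⟩
  · apply hβ (c s)
    rw [← map_pow, ← hs, hcc]
  · apply hββ (s * β)
    rw [hs]; ring

theorem member_ng {F K H Ω : Type*} [Field F] [NumberField F] [IsTotallyReal F]
    (hd : finrank ℚ F = 2) {cF : F ≃ₐ[ℚ] F} (hcF : cF ≠ 1) [Field K] [NumberField K]
    [Algebra F K] [IsTotallyComplex K] (hKF : finrank F K = 2) [Field H] [Algebra K H]
    (hH : finrank K H = 2) [Field Ω] [CharZero Ω] [IsAlgClosed Ω] (p : ℕ) [hp : Fact p.Prime]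
    (k : Type*) [NormedField k] [NormedAlgebra ℚ_[p] k] [IsUltrametricDist k]
    (R : ℕ) (hR : 0 < R) (hRk : ‖(R : k)‖ ≤ 1 / 8) (x y b β : 𝓞 K) (ν : (𝓞 F)ˣ) (z : 𝓞 F)
    (hrel : 4 * ((R : 𝓞 K) * x * b) * (1 + R * x) = 1 - (algebraMap (𝓞 F) (𝓞 K) (ν : 𝓞 F)) ^ 2)
    (hb : b = R * y) (hν : (ν : 𝓞 F) - 1 = R * z) (hx0 : x ≠ 0) (hb0 : b ≠ 0)
    (hνt : ∀ n : ℕ, n ≠ 0 → ν ^ n ≠ 1) (hνc : (ν : F) * cF (ν : F) = 1)
    (hβ : β = (R * x + R * x * b) * (2 + R * x + R * x * b))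
    (r : H) (hr : r ^ 2 = algebraMap K H (β : K)) (hrK : ∀ q : K, algebraMap K H q ≠ r) :
    SigmaLeopoldt K H Ω p k := by
  have hchar : CharZero k := charZero_of_padic p
  have hchH : CharZero H := charZero_of_injective_algebraMap (algebraMap K H).injective
  set f : F →+* H := (algebraMap K H).comp (algebraMap F K) with hf
  -- the integers of `K` in `H`
  set j : 𝓞 K →+* H := (algebraMap K H).comp (algebraMap (𝓞 K) K) with hj
  have hjint : ∀ w : 𝓞 K, IsIntegral ℤ (j w) := fun w =>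
    (RingOfIntegers.isIntegral_coe w).map (algebraMap K H).toIntAlgHom
  have hfj : ∀ w : 𝓞 F, j (algebraMap (𝓞 F) (𝓞 K) w) = f (w : F) := by
    intro w
    rw [hj, RingHom.comp_apply, algebraMap_coe]
    rfl
  have hjinj : Function.Injective j :=
    (algebraMap K H).injective.comp RingOfIntegers.coe_injective
  set A : H := j (R * x) with hA
  set B : H := j (R * x * b) with hB
  set n : H := f (ν : F) with hn
  set n' : H := f ((ν⁻¹ : (𝓞 F)ˣ) : F) with hn'
  have hnn : n * n' = 1 := by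
    rw [hn, hn', ← map_mul, ← Units.coe_mul, mul_inv_cancel, Units.coe_one, map_one]
  have hr2 : r ^ 2 = (A + B) * (2 + A + B) := by
    rw [hr]
    change j β = _
    rw [hβ, hA, hB]
    simp only [map_add, map_mul, map_ofNat, map_natCast]
  have hABn : 4 * B * (1 + A) = 1 - n ^ 2 := by
    have := congrArg j hrel
    simp only [map_sub, map_pow, map_mul, map_add, map_one, map_ofNat, map_natCast, hfj] at this
    rw [hA, hB, hn]
    simp only [map_mul, map_natCast]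
    exact this
  have hinteg : ∀ w : F, IsIntegral ℤ w → IsIntegral ℤ (f w) := fun w hw =>
    hw.map f.toIntAlgHom
  have hη3 : IsIntegral ℤ (n + n') :=
    (hinteg _ (RingOfIntegers.isIntegral_coe _)).add (hinteg _ (RingOfIntegers.isIntegral_coe _))
  have hu1m : (1 + A + B + r) * (1 + A + B - r) = 1 := by
    linear_combination -hr2
  have hu1s : IsIntegral ℤ ((1 + A + B + r) + (1 + A + B - r)) := by
    have : (1 + A + B + r) + (1 + A + B - r) = j (2 * (1 + R * x + R * x * b)) := by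
      rw [hA, hB]
      simp only [map_add, map_mul, map_ofNat, map_one, map_natCast]
      ring
    rw [this]
    exact hjint _
  have hu2m : ((1 + A - B + r) * n') * ((1 + A - B - r) * n') = 1 := by
    linear_combination (-n' ^ 2) * hr2 - n' ^ 2 * hABn + (n * n' + 1) * hnn
  have hu2s : IsIntegral ℤ (((1 + A - B + r) * n') + ((1 + A - B - r) * n')) := by
    have : ((1 + A - B + r) * n') + ((1 + A - B - r) * n') =
        j (2 * (1 + R * x - R * x * b)) * n' := by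
      rw [hA, hB]
      simp only [map_add, map_sub, map_mul, map_ofNat, map_one, map_natCast]
      ring
    rw [this]
    exact (hjint _).mul (hinteg _ (RingOfIntegers.isIntegral_coe _))
  have hτf : ∀ (τ : H ≃ₐ[K] H) (w : F), τ (f w) = f w := fun τ w => τ.commutes _
  have hτj : ∀ (τ : H ≃ₐ[K] H) (w : 𝓞 K), τ (j w) = j w := fun τ w => τ.commutes _
  have hτr : ∀ τ : H ≃ₐ[K] H, τ ≠ 1 → τ r = -r := fun τ hτ => map_sqrt hH r _ hr hrK τ hτ
  refine sigmaLeopoldt_of_det hd hKF p k hH (mkUnit _ _ hη3 hnn) (mkUnit _ _ hu1s hu1m)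
    (mkUnit _ _ hu2s hu2m) ?_ ?_ ?_ ?_ ?_
  · intro τ
    exact hτf τ _
  · intro τ hτ
    change (1 + A + B + r) * τ (1 + A + B + r) = 1
    rw [map_add, map_add, map_add, map_one, hA, hB, hτj, hτj, hτr τ hτ, ← sub_eq_add_neg]
    exact hu1m
  · intro τ hτ
    change ((1 + A - B + r) * n') * τ ((1 + A - B + r) * n') = 1
    rw [map_mul, map_add, map_sub, map_add, map_one, hA, hB, hn', hτf, hτj, hτj, hτr τ hτ,
      ← sub_eq_add_neg]
    exact hu2m
  · intro L ψ
    rw [logUnits_apply]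
    exact log_unit_ne_zero p L (ψ.comp f) ν (fun m hm => hνt m hm.ne') _ rfl
  · intro L ψ₁ ψ₂ hψ
    rw [logUnits_apply, logUnits_apply, logUnits_apply, logUnits_apply]
    have hnorm : ∀ (ψ : H →+* k) (w : 𝓞 K), ‖ψ (j w)‖ ≤ 1 := fun ψ w =>
      norm_embedding_le_one' p ψ _ (hjint w)
    have hR0 : (R : k) ≠ 0 := by exact_mod_cast hR.ne'
    have ha : ∀ ψ : H →+* k, ‖ψ A‖ ≤ 1 / 8 := by
      intro ψ
      rw [hA, map_mul, map_mul, map_natCast, map_natCast, norm_mul]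
      have := hnorm ψ x
      nlinarith [norm_nonneg (ψ (j x)), norm_nonneg (R : k)]
    have ha0 : ∀ ψ : H →+* k, ψ A ≠ 0 := by
      intro ψ
      rw [Ne, map_eq_zero, hA, map_eq_zero_iff j hjinj]
      exact mul_ne_zero (by exact_mod_cast hR.ne') hx0
    have hbb : ∀ ψ : H →+* k, ‖ψ B‖ ≤ ‖ψ A‖ / 8 := by
      intro ψ
      have h1 : ψ B = ψ A * ((R : k) * ψ (j y)) := by
        rw [hA, hB, hb]
        simp only [map_mul, map_natCast]
      rw [h1, norm_mul, norm_mul]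
      have h2 := hnorm ψ y
      have h3 : ‖(R : k)‖ * ‖ψ (j y)‖ ≤ 1 / 8 := by
        nlinarith [norm_nonneg (ψ (j y)), norm_nonneg (R : k)]
      nlinarith [norm_nonneg (ψ A)]
    have hb0' : ∀ ψ : H →+* k, ψ B ≠ 0 := by
      intro ψ
      rw [Ne, map_eq_zero, hB, map_eq_zero_iff j hjinj]
      exact mul_ne_zero (mul_ne_zero (by exact_mod_cast hR.ne') hx0) hb0
    have hν' : ∀ ψ : H →+* k, ‖1 - ψ n‖ ≤ 1 / 8 := by
      intro ψ
      have h1 : 1 - ψ n = -((R : k) * ψ (f (z : F))) := by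
        have h2 := congrArg (fun w : 𝓞 F => ψ (f (algebraMap (𝓞 F) F w))) hν
        simp only [map_sub, map_mul, map_one, map_natCast] at h2
        rw [← h2, hn]
        ring
      rw [h1, norm_neg, norm_mul]
      have h3 := norm_embedding_le_one p (ψ.comp f) z
      have h4 : ‖ψ (f (z : F))‖ ≤ 1 := h3
      nlinarith [norm_nonneg (ψ (f (z : F))), norm_nonneg (R : k)]
    have hrel' : ∀ ψ : H →+* k, 4 * ψ B * (1 + ψ A) = 1 - (ψ n) ^ 2 := by
      intro ψ
      have := congrArg ψ hABn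
      simpa only [map_sub, map_pow, map_mul, map_add, map_one, map_ofNat] using this
    have hr' : ∀ ψ : H →+* k, (ψ r) ^ 2 = (ψ A + ψ B) * (2 + ψ A + ψ B) := by
      intro ψ
      have := congrArg ψ hr2
      simpa only [map_sub, map_pow, map_mul, map_add, map_one, map_ofNat] using this
    have hu' : ∀ ψ : H →+* k, ((Units.map (ψ.comp (algebraMap (𝓞 H) H) : 𝓞 H →* k)
        (mkUnit _ _ hu1s hu1m) : kˣ) : k) = 1 + ψ A + ψ B + ψ r := by
      intro ψ
      change ψ (1 + A + B + r) = _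
      rw [map_add, map_add, map_add, map_one]
    have hv' : ∀ ψ : H →+* k, ((Units.map (ψ.comp (algebraMap (𝓞 H) H) : 𝓞 H →* k)
        (mkUnit _ _ hu2s hu2m) : kˣ) : k) * ψ n = 1 + ψ A - ψ B + ψ r := by
      intro ψ
      change ψ ((1 + A - B + r) * n') * ψ n = _
      rw [← map_mul, mul_assoc, mul_comm n' n, hnn, mul_one, map_add, map_sub, map_add, map_one]
    have hνν : ψ₁ n * ψ₂ n = 1 := by
      have h1 := embedding_eq_comp hd hcF (ψ₁ := ψ₁.comp f) (ψ₂ := ψ₂.comp f) (Ne.symm hψ) (ν : F)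
      have h2 : ψ₂ n = ψ₁ (f (cF (ν : F))) := h1
      rw [h2, hn, ← map_mul, ← map_mul, hνc, map_one, map_one]
    exact det_ne_zero p L (ha ψ₁) (ha0 ψ₁) (hbb ψ₁) (hb0' ψ₁) (hν' ψ₁) (hrel' ψ₁) (hr' ψ₁)
      (hu' ψ₁) (hv' ψ₁) (ha ψ₂) (ha0 ψ₂) (hbb ψ₂) (hb0' ψ₂) (hν' ψ₂) (hrel' ψ₂) (hr' ψ₂)
      (hu' ψ₂) (hv' ψ₂) hνν

theorem norm_le_of_dvd (p : ℕ) [hp : Fact p.Prime] {k : Type*} [NormedField k]
    [NormedAlgebra ℚ_[p] k] (R : ℕ) (h : p ^ 3 ∣ R) : ‖(R : k)‖ ≤ 1 / 8 := by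
  obtain ⟨m, rfl⟩ := h
  push_cast
  rw [norm_mul]
  calc ‖(p : k) ^ 3‖ * ‖(m : k)‖ ≤ (1 / 2) ^ 3 * 1 :=
        mul_le_mul (norm_p_pow_le p 3) (norm_natCast_le_one p m) (norm_nonneg _) (by positivity)
    _ = 1 / 8 := by norm_num

theorem main (F K : Type*) [Field F] [NumberField F] [Field K] [NumberField K] [Algebra F K]
    [IsTotallyReal F] [IsTotallyComplex K] (hd : finrank ℚ F = 2) (hKF : finrank F K = 2)
    (P : Finset ℕ) :
    {H : IntermediateField K (AlgebraicClosure K) | finrank K H = 2 ∧ ¬ IsGalois F H ∧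
      ∀ p ∈ P, ∀ _ : Fact p.Prime,
        SigmaLeopoldt K H (AlgebraicClosure K) p ℂ_[p]}.Infinite := by
  classical
  obtain ⟨θ, δ, hθ, hθ2, hδint, -, hδpos⟩ := exists_theta (F := F) (K := K) hd hKF
  obtain ⟨cF, hcF⟩ := exists_gal hd
  have hθF : ∀ q : F, q ^ 2 ≠ -δ := by
    intro q hq
    have h1 : (θ - algebraMap F K q) * (θ + algebraMap F K q) = 0 := by
      have : algebraMap F K q ^ 2 = algebraMap F K (-δ) := by rw [← map_pow, hq]
      linear_combination hθ2 - this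
    rcases mul_eq_zero.1 h1 with h | h
    · exact hθ ⟨q, (sub_eq_zero.1 h).symm⟩
    · exact hθ ⟨-q, by rw [map_neg]; exact (eq_neg_of_add_eq_zero_left h).symm⟩
  obtain ⟨c, hc⟩ := exists_conj hKF θ (-δ) hθ2 hθF
  have hθF' : ∀ q : F, algebraMap F K q ≠ θ := fun q hq => hθ ⟨q, hq⟩
  have hcc : ∀ z, c (c z) = z := by
    intro z
    obtain ⟨u, v, rfl⟩ := exists_add_mul hKF θ hθF' z
    simp only [map_add, map_mul, AlgEquiv.commutes, hc, map_neg, neg_neg]
  have hθint : IsIntegral ℤ θ := by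
    refine IsIntegral.of_pow (n := 2) two_pos ?_
    rw [hθ2, map_neg]
    exact (hδint.map (algebraMap F K).toIntAlgHom).neg
  obtain ⟨θ', hθ'⟩ : ∃ θ' : 𝓞 K, (θ' : K) = θ := ⟨⟨θ, hθint⟩, rfl⟩
  set R : ℕ := ∏ p ∈ P with p.Prime, p ^ 3 with hRdef
  have hR : 0 < R := Finset.prod_pos fun p hp => pow_pos (Finset.mem_filter.1 hp).2.pos 3
  have hpR : ∀ p ∈ P, p.Prime → p ^ 3 ∣ R := fun p hp hpp =>
    Finset.dvd_prod_of_mem (fun p => p ^ 3) (Finset.mem_filter.2 ⟨hp, hpp⟩)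
  intro hfin
  have hgen : ∀ H : IntermediateField K (AlgebraicClosure K), ∃ d : 𝓞 K, d ≠ 0 ∧
      (finrank K H = 2 → ∃ z : H, z ^ 2 = algebraMap K H (d : K) ∧
        ∀ q : K, algebraMap K H q ≠ z) := by
    intro H
    by_cases hH : finrank K H = 2
    · obtain ⟨z, d, h1, h2, h3⟩ := exists_integral_gen hH
      exact ⟨d, h3, fun _ => ⟨z, h1, h2⟩⟩
    · exact ⟨1, one_ne_zero, fun h => absurd h hH⟩
  choose dd hdd0 hdd using hgen
  obtain ⟨x, y, b, β, ν, z, hrel, hb, hν, hx0, hb0, hνt, hνc, hβ, hβ1, hβ2, hβT⟩ :=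
    exists_choice hd hcF θ' δ (by rw [hθ']; exact hθ2) hδpos c (by rw [hθ']; exact hc) hcc R hR
      (hfin.toFinset.image dd) (by
        intro d hd
        obtain ⟨H, -, rfl⟩ := Finset.mem_image.1 hd
        exact hdd0 H)
  -- non-squares in `K`
  have hnsq : ∀ d : 𝓞 K, (∀ q : 𝓞 K, q ^ 2 ≠ d) → ∀ q : K, q ^ 2 ≠ (d : K) := by
    intro d hd q hq
    have hqint : IsIntegral ℤ q := by
      refine IsIntegral.of_pow (n := 2) two_pos ?_
      rw [hq]
      exact RingOfIntegers.isIntegral_coe _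
    obtain ⟨q', hq'⟩ : ∃ q' : 𝓞 K, algebraMap (𝓞 K) K q' = q := ⟨⟨q, hqint⟩, rfl⟩
    apply hd q'
    apply RingOfIntegers.coe_injective
    rw [map_pow, hq']
    exact hq
  have hβK := hnsq β hβ1
  have hββK : ∀ q : K, q ^ 2 ≠ (β : K) * c (β : K) := by
    intro q hq
    apply hnsq _ hβ2 q
    rw [hq]
    change _ = algebraMap (𝓞 K) K (β * conjO c β)
    rw [map_mul, conjO_coe]
  obtain ⟨H, hH, r, hr⟩ := exists_quadratic (Ω := AlgebraicClosure K) (β : K) hβK
  have hrK : ∀ q : K, algebraMap K H q ≠ r := by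
    intro q hq
    apply hβK q
    apply (algebraMap K H).injective
    rw [map_pow, hq, hr]
  have hmem : H ∈ {H : IntermediateField K (AlgebraicClosure K) | finrank K H = 2 ∧
      ¬ IsGalois F H ∧ ∀ p ∈ P, ∀ _ : Fact p.Prime,
        SigmaLeopoldt K H (AlgebraicClosure K) p ℂ_[p]} := by
    refine ⟨hH, not_isGalois hH c hcc r (β : K) hr hβK hββK, ?_⟩
    intro p hp hpf
    exact member_ng hd hcF hKF hH p ℂ_[p] R hR (norm_le_of_dvd p R (hpR p hp hpf.out)) x y b β ν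
      z hrel hb hν hx0 hb0 hνt hνc hβ r hr hrK
  obtain ⟨w, hw, hwK⟩ := hdd H hH
  rcases sq_cases hH r _ hr hβK w _ hw with ⟨s, hs, -⟩ | ⟨s, -, hs⟩
  · exact hwK s hs.symm
  · refine hnsq (β * dd H) (hβT (dd H) (Finset.mem_image.2 ⟨H, hfin.mem_toFinset.2 hmem, rfl⟩))
      (s * (β : K)) ?_
    have h8 : ((β * dd H : 𝓞 K) : K) = (β : K) * (dd H : K) := map_mul (algebraMap (𝓞 K) K) _ _
    rw [h8, hs]
    ring

end Pool.Agent.Helper93.NG
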